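import Pool.Agent.helper61.CSW.W.SpecW

set_option autoImplicit false
set_option linter.all false

/-!
# csw:LIS (MP_70a088_an): linearly independent line fields separate the residues
-/

open Complex Metric Set Filter Topology MeasureTheory
open YPPS (fd fdd pre TT CV IsCyc rho Exact)
open MPS (BB)
open Pool.Agent.helper98.ILF (juliaSet fatouSet)

noncomputable section

open CSS (SE SV JJ)

namespace YW

theorem LIS_int {f : SE} (X : NP f) (μ : ℂ → ℂ) (hm : Measurable μ) (hb : ∀ z, ‖μ z‖ ≤ 1)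
    (a : ℂ) (hK : Integrable (KX X a)) : Integrable (fun z => μ z * KX X a z) :=
  hK.bdd_mul (c := 1) hm.aestronglyMeasurable (Filter.Eventually.of_forall hb)

/-- the linear combination of invariant forms -/
theorem LIS_IF {f : SE} (n : ℕ) (μ : Fin n → ℂ → ℂ) (hIF : ∀ i, IF f (μ i)) (a : Fin n → ℂ)
    (s : ℝ) (hs : 0 < s) (has : ∑ i, ‖a i‖ ≤ s) : IF f (fun z => (∑ i, a i * μ i z) / (s : ℂ)) where
  meas := by
    refine Measurable.div_const ?_ _
    exact Finset.measurable_fun_sum _ (fun i _ => (hIF i).meas.const_mul _)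
  bd := by
    intro z
    rw [norm_div, Complex.norm_real, Real.norm_of_nonneg hs.le, div_le_one hs]
    refine (norm_sum_le _ _).trans (le_trans (Finset.sum_le_sum (fun i _ => ?_)) has)
    rw [norm_mul]
    calc ‖a i‖ * ‖μ i z‖ ≤ ‖a i‖ * 1 := mul_le_mul_of_nonneg_left ((hIF i).bd z) (norm_nonneg _)
      _ = ‖a i‖ := mul_one _
  supp := by
    intro z hz
    by_contra hzJ
    apply hz
    have : ∑ i, a i * μ i z = 0 := by
      refine Finset.sum_eq_zero (fun i _ => ?_)
      by_contra hne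
      exact hzJ ((hIF i).supp z (fun h => hne (by rw [h, mul_zero])))
    simp [this]
  inv := by
    have h : ∀ᵐ z : ℂ, ∀ i, μ i (f.eval z) * (starRingEnd ℂ) (fd f z) / fd f z = μ i z :=
      Filter.eventually_all.2 (fun i => (hIF i).inv)
    filter_upwards [h] with z hz
    have h1 : ∀ i, a i * μ i (f.eval z) * (starRingEnd ℂ) (fd f z) / fd f z = a i * μ i z := by
      intro i
      rw [← hz i]
      ring
    calc (∑ i, a i * μ i (f.eval z)) / (s : ℂ) * (starRingEnd ℂ) (fd f z) / fd f z =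
        (∑ i, a i * μ i (f.eval z) * (starRingEnd ℂ) (fd f z) / fd f z) / (s : ℂ) := by
          rw [← Finset.sum_div, ← Finset.sum_mul]
          ring
      _ = _ := by simp_rw [h1]

theorem LIS (hNUS : NUS_stmt) (hKXP : KXP_stmt) (hATS : ATS_stmt) : LIS_stmt := by
  classical
  intro f X n μ hIF hcard hlin
  refine ⟨fun i => hATS.2 f (μ i) (hIF i) ∅, ?_⟩
  intro c hc h0
  obtain ⟨hint, -, h3, -⟩ := hKXP f X
  have hI : ∀ i v, Integrable (fun z => μ i z * KX X v z) := fun i v =>
    LIS_int X (μ i) (hIF i).meas (hIF i).bd v (hint v)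
  set M : Fin n → ({v // v ∈ SV f} → ℂ) := fun i v => VX X (μ i) v.1 with hM
  have hli : LinearIndependent ℂ M := by
    rw [Fintype.linearIndependent_iff]
    intro a ha
    set s : ℝ := 1 + ∑ i, ‖a i‖ with hs
    have hs0 : 0 < s := by
      have : 0 ≤ ∑ i, ‖a i‖ := Finset.sum_nonneg (fun i _ => norm_nonneg _)
      linarith
    have hsc : (s : ℂ) ≠ 0 := by exact_mod_cast hs0.ne'
    have hν := LIS_IF n μ hIF a s hs0 (by rw [hs]; linarith)
    have hz := hNUS f X _ hν (by
      intro v hv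
      have h1 := congrFun ha ⟨v, hv⟩
      simp only [Finset.sum_apply, Pi.smul_apply, smul_eq_mul, Pi.zero_apply, hM] at h1
      unfold VX at h1 ⊢
      have h2 : ∀ z, (∑ i, a i * μ i z) / (s : ℂ) * KX X v z =
          ∑ i, (a i / (s : ℂ)) * (μ i z * KX X v z) := by
        intro z
        rw [div_mul_eq_mul_div, Finset.sum_mul, Finset.sum_div]
        refine Finset.sum_congr rfl (fun i _ => ?_)
        ring
      simp_rw [h2]
      rw [integral_finset_sum _ (fun i _ => (hI i v).const_mul _)]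
      simp_rw [integral_const_mul]
      have h4 : ∀ i, a i / (s : ℂ) * ∫ z : ℂ, μ i z * KX X v z =
          (a i * ∫ z : ℂ, μ i z * KX X v z) / (s : ℂ) := fun i => by ring
      simp_rw [h4]
      rw [← Finset.sum_div, h1, zero_div])
    have ha0 : a = 0 := by
      refine hlin a ?_
      filter_upwards [hz] with z hz
      have h5 : (∑ i, a i * μ i z) / (s : ℂ) = 0 := hz
      rcases div_eq_zero_iff.1 h5 with h6 | h6
      · exact h6
      · exact absurd h6 hsc
    intro i
    rw [ha0]
    rfl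
  have hfr : Module.finrank ℂ ({v // v ∈ SV f} → ℂ) = (SV f).card := by
    rw [Module.finrank_fintype_fun_eq_card, Fintype.card_coe]
  have hn : Fintype.card (Fin n) = Module.finrank ℂ ({v // v ∈ SV f} → ℂ) := by
    refine le_antisymm hli.fintype_card_le_finrank ?_
    rw [hfr, Fintype.card_fin]
    exact hcard
  have hspan : Submodule.span ℂ (Set.range M) = ⊤ :=
    hli.span_eq_top_of_card_eq_finrank' hn
  -- the functional
  let φ : ({v // v ∈ SV f} → ℂ) →ₗ[ℂ] ℂ :=
    ∑ v : {v // v ∈ SV f}, (c v.1) • (LinearMap.proj v : ({v // v ∈ SV f} → ℂ) →ₗ[ℂ] ℂ)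
  have hφ : ∀ w, φ w = ∑ v : {v // v ∈ SV f}, c v.1 * w v := by
    intro w
    simp [φ, LinearMap.sum_apply]
  have hφM : ∀ i, φ (M i) = 0 := by
    intro i
    rw [hφ, ← h0 i]
    have h1 : ∫ z : ℂ, μ i z * RS (ES f X) c z =
        ∫ z : ℂ, ∑ v : {v // v ∈ SV f}, c v.1 * (μ i z * KX X v.1 z) := by
      refine integral_congr_ae ?_
      filter_upwards [h3 c hc] with z hz
      show μ i z * RS (ES f X) c z = ∑ v : {v // v ∈ SV f}, c v.1 * (μ i z * KX X v.1 z)
      rw [hz, Finset.mul_sum, ← Finset.sum_coe_sort (SV f)]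
      refine Finset.sum_congr rfl (fun v _ => ?_)
      ring
    rw [h1, integral_finset_sum _ (fun v _ => (hI i v.1).const_mul _)]
    refine Finset.sum_congr rfl (fun v _ => ?_)
    rw [integral_const_mul]
    rfl
  have hφ0 : φ = 0 := by
    refine LinearMap.ext_on_range hspan (fun i => ?_)
    rw [hφM i]
    rfl
  have hcv : ∀ v ∈ SV f, c v = 0 := by
    intro v hv
    have h1 : φ (Pi.single ⟨v, hv⟩ 1) = 0 := by rw [hφ0]; rfl
    rw [hφ, Finset.sum_eq_single (⟨v, hv⟩ : {v // v ∈ SV f})] at h1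
    · simpa using h1
    · intro b _ hb
      rw [Pi.single_eq_of_ne hb, mul_zero]
    · intro h
      exact absurd (Finset.mem_univ _) h
  have hp1 : X.p₁ ∉ insert X.p₂ (SV f) := by
    rw [Finset.mem_insert]
    rintro (h | h)
    · exact X.ne h
    · exact X.ns1 h
  obtain ⟨m0, m1⟩ := hc
  unfold ES at m0 m1
  rw [Finset.sum_insert hp1, Finset.sum_insert X.ns2] at m0 m1
  have hs0 : ∑ v ∈ SV f, c v = 0 := Finset.sum_eq_zero (fun v hv => hcv v hv)
  have hs1 : ∑ v ∈ SV f, c v * v = 0 := Finset.sum_eq_zero (fun v hv => by rw [hcv v hv, zero_mul])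
  rw [hs0, add_zero] at m0
  rw [hs1, add_zero] at m1
  have hne : X.p₁ - X.p₂ ≠ 0 := sub_ne_zero.2 X.ne
  have hc1 : c X.p₁ = 0 := by
    have h1 : c X.p₁ * (X.p₁ - X.p₂) = 0 := by linear_combination m1 - X.p₂ * m0
    rcases mul_eq_zero.1 h1 with h | h
    · exact h
    · exact absurd h hne
  have hc2 : c X.p₂ = 0 := by
    rw [hc1, zero_add] at m0
    exact m0
  intro e he
  unfold ES at he
  rw [Finset.mem_insert, Finset.mem_insert] at he
  rcases he with h | h | h
  · rw [h]; exact hc1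
  · rw [h]; exact hc2
  · exact hcv e h

end YW
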